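import Pool.Agent.Helper14.TR.Defs
import Pool.Agent.Helper54.TR.EC
import Pool.Agent.Helper4.TR.Dsc
import Pool.Agent.Helper5.EL.MTle

/-!
Block TR-8b (project TR for MP_b8862a_ag, owner helper14): the upper bound for the Mumford-Tate group. Determinant
tensors of idempotents in `EC`.
-/

set_option linter.unusedSectionVars false

open Matrix

namespace MH

variable {n : Type*} [Fintype n] [DecidableEq n]

section tensors32

variable {A₀ : Type*} [CommRing A₀]

/-- product of tensors -/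
private def pt32 {a b : ℕ} (u : (Fin a → n) → A₀) (v : (Fin b → n) → A₀) : (Fin a ⊕ Fin b → n) → A₀ :=
  fun i => u (fun k => i (Sum.inl k)) * v (fun k => i (Sum.inr k))

private lemma eig_pt32 {a b : ℕ} {u : (Fin a → n) → A₀} {v : (Fin b → n) → A₀} {g g' : Matrix n n A₀} {c d : A₀}
    (hu : actF (fun _ => g) u = c • u) (hv : actF (fun _ => g'ᵀ) v = d • v) :
    actF (slot a b g g') (pt32 u v) = (c * d) • pt32 u v := by
  funext i
  have h1 : actF (slot a b g g') (pt32 u v) i =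
      actF (fun _ => g) u (fun k => i (Sum.inl k)) * actF (fun _ => g'ᵀ) v (fun k => i (Sum.inr k)) := by
    unfold actF
    rw [Finset.sum_mul_sum, ← Fintype.sum_prod_type']
    refine Fintype.sum_equiv (Equiv.sumArrowEquivProdArrow (Fin a) (Fin b) n) _ _ fun j => ?_
    rw [Fintype.prod_sum_type]
    simp only [slot, Sum.elim_inl, Sum.elim_inr, pt32, Equiv.sumArrowEquivProdArrow, Equiv.coe_fn_mk,
      Function.comp_def]
    ring
  rw [h1, hu, hv]
  simp only [Pi.smul_apply, smul_eq_mul, pt32]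
  ring

/-- the tensor `M ⊗ ... ⊗ M` -/
private def qt32 (h : ℕ) (M : Matrix n n A₀) : (Fin (h * 2) → n) → A₀ :=
  fun j => ∏ l : Fin h, M (j (finProdFinEquiv (l, 0))) (j (finProdFinEquiv (l, 1)))

private lemma act_qt32 (h : ℕ) (B M : Matrix n n A₀) :
    actF (fun _ => B) (qt32 h M) = qt32 h (B * M * Bᵀ) := by
  funext i
  unfold actF qt32
  have h1 : ∀ l : Fin h, (B * M * Bᵀ) (i (finProdFinEquiv (l, 0))) (i (finProdFinEquiv (l, 1))) =
      ∑ w : Fin 2 → n, B (i (finProdFinEquiv (l, 0))) (w 0) * B (i (finProdFinEquiv (l, 1))) (w 1) *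
        M (w 0) (w 1) := by
    intro l
    rw [← Equiv.sum_comp (finTwoArrowEquiv n).symm, Fintype.sum_prod_type]
    simp only [Matrix.mul_apply, Finset.sum_mul, Matrix.transpose_apply, finTwoArrowEquiv_symm_apply,
      Matrix.cons_val_zero, Matrix.cons_val_one]
    rw [Finset.sum_comm]
    refine Finset.sum_congr rfl fun x _ => Finset.sum_congr rfl fun y _ => ?_
    ring
  simp_rw [h1]
  rw [Finset.prod_univ_sum, Fintype.piFinset_univ]
  refine Fintype.sum_equiv ((Equiv.arrowCongr (finProdFinEquiv (m := h) (n := 2)).symm (Equiv.refl n)).trans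
    (Equiv.curry (Fin h) (Fin 2) n)) _ _ fun j => ?_
  rw [← Equiv.prod_comp (finProdFinEquiv (m := h) (n := 2)), Fintype.prod_prod_type, ← Finset.prod_mul_distrib]
  refine Finset.prod_congr rfl fun l _ => ?_
  rw [Fin.prod_univ_two]
  rfl

private lemma qt_smul32 (h : ℕ) (c : A₀) (M : Matrix n n A₀) : qt32 h (c • M) = c ^ h • qt32 h M := by
  funext j
  simp only [qt32, Matrix.smul_apply, smul_eq_mul, Finset.prod_mul_distrib, Finset.prod_const,
    Finset.card_univ, Fintype.card_fin, Pi.smul_apply]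

private lemma qt_ne32 [IsDomain A₀] {M : Matrix n n A₀} {x y : n} (hxy : M x y ≠ 0) (h : ℕ) :
    qt32 h M (fun k => if (finProdFinEquiv.symm k).2 = 0 then x else y) ≠ 0 := by
  unfold qt32
  rw [Finset.prod_ne_zero_iff]
  intro l _
  simpa using hxy

/-- the determinant of a product, expanded in the rows of the second factor -/
private lemma det_mul32 {r : ℕ} (B : Matrix (Fin r) n A₀) (W : Matrix n (Fin r) A₀) :
    (B * W).det = ∑ j : Fin r → n, (∏ k, B k (j k)) * (W.submatrix j id).det := by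
  have hd : ∀ N : Matrix (Fin r) (Fin r) A₀,
      N.det = ∑ σ : Equiv.Perm (Fin r), ((Equiv.Perm.sign σ : ℤ) : A₀) * ∏ k, N k (σ k) := by
    intro N
    rw [← Matrix.det_transpose, Matrix.det_apply']
    rfl
  simp_rw [hd, Finset.mul_sum]
  rw [Finset.sum_comm]
  refine Finset.sum_congr rfl fun σ _ => ?_
  simp_rw [Matrix.mul_apply]
  rw [Finset.prod_univ_sum, Fintype.piFinset_univ, Finset.mul_sum]
  refine Finset.sum_congr rfl fun j _ => ?_
  rw [Finset.prod_mul_distrib]
  simp only [Matrix.submatrix_apply, id]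
  ring

/-- the determinant tensor -/
private def dt32 {r : ℕ} (W : Matrix n (Fin r) A₀) : (Fin r → n) → A₀ := fun i => (W.submatrix i id).det

private lemma act_dt32 {r : ℕ} {W : Matrix n (Fin r) A₀} {g : Matrix n n A₀} {N : Matrix (Fin r) (Fin r) A₀}
    (hg : g * W = W * N) : actF (fun _ => g) (dt32 W) = N.det • dt32 W := by
  funext i
  have h1 := det_mul32 (g.submatrix i id) W
  have h2 : g.submatrix i id * W = W.submatrix i id * N := by
    have h3 : g.submatrix i id * W = (g * W).submatrix i id := by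
      ext a b
      simp [Matrix.mul_apply]
    have h4 : W.submatrix i id * N = (W * N).submatrix i id := by
      ext a b
      simp [Matrix.mul_apply]
    rw [h3, h4, hg]
  rw [h2, Matrix.det_mul] at h1
  simp only [Pi.smul_apply, smul_eq_mul, dt32, actF]
  simp only [Matrix.submatrix_apply, id] at h1
  rw [← h1]
  ring

private lemma dt_ne32 [Nontrivial A₀] {r : ℕ} {W : Matrix n (Fin r) A₀} {V : Matrix (Fin r) n A₀} (h : V * W = 1) :
    ∃ i, dt32 W i ≠ 0 := by
  by_contra hcon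
  push Not at hcon
  have h1 := det_mul32 V W
  rw [h, Matrix.det_one, Finset.sum_eq_zero] at h1
  · exact one_ne_zero h1
  · intro j _
    have h2 := hcon j
    unfold dt32 at h2
    rw [h2, mul_zero]

end tensors32

/-! ### idempotents -/

private lemma fac32 {e : Matrix n n ℂ} (hee : e * e = e) :
    ∃ (W : Matrix n (Fin e.rank) ℂ) (V : Matrix (Fin e.rank) n ℂ), V * W = 1 ∧ W * V = e := by
  classical
  have hr : Module.finrank ℂ (LinearMap.range e.mulVecLin) = e.rank := rfl
  let b := Module.finBasisOfFinrankEq ℂ (LinearMap.range e.mulVecLin) hr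
  let φ : (n → ℂ) →ₗ[ℂ] (Fin e.rank → ℂ) := b.equivFun.toLinearMap ∘ₗ e.mulVecLin.rangeRestrict
  let ψ : (Fin e.rank → ℂ) →ₗ[ℂ] (n → ℂ) :=
    (LinearMap.range e.mulVecLin).subtype ∘ₗ b.equivFun.symm.toLinearMap
  refine ⟨LinearMap.toMatrix' ψ, LinearMap.toMatrix' φ, ?_, ?_⟩
  · rw [← LinearMap.toMatrix'_comp, ← LinearMap.toMatrix'_id]
    congr 1
    refine LinearMap.ext fun x => ?_
    have h1 : ∀ u : LinearMap.range e.mulVecLin, e.mulVecLin.rangeRestrict (u : n → ℂ) = u := by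
      rintro ⟨u, v, rfl⟩
      apply Subtype.ext
      simp only [LinearMap.codRestrict_apply, Matrix.mulVecLin_apply, LinearMap.rangeRestrict]
      rw [Matrix.mulVec_mulVec, hee]
    simp only [φ, ψ, LinearMap.comp_apply, Submodule.subtype_apply, LinearEquiv.coe_coe, LinearMap.id_apply]
    rw [h1, LinearEquiv.apply_symm_apply]
  · rw [← LinearMap.toMatrix'_comp]
    have h2 : ψ ∘ₗ φ = e.mulVecLin := by
      refine LinearMap.ext fun x => ?_
      simp only [φ, ψ, LinearMap.comp_apply, Submodule.subtype_apply, LinearEquiv.coe_coe,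
        LinearEquiv.symm_apply_apply]
      rfl
    rw [h2, ← Matrix.toLin'_apply', LinearMap.toMatrix'_toLin']

private lemma det32 {k : Type*} [Fintype k] [DecidableEq k] {e g : Matrix n n ℂ} {W : Matrix n k ℂ}
    {V : Matrix k n ℂ} (h1 : V * W = 1) (h2 : W * V = e) : (g * e + (1 - e)).det = (V * g * W).det := by
  have h3 : g * e + (1 - e) = 1 + ((g - 1) * W) * V := by
    rw [Matrix.mul_assoc, h2, Matrix.sub_mul, Matrix.one_mul]
    abel
  have h4 : 1 + V * ((g - 1) * W) = V * g * W := by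
    rw [Matrix.sub_mul, Matrix.one_mul, Matrix.mul_sub, h1, ← Matrix.mul_assoc]
    abel
  rw [h3, Matrix.det_one_add_mul_comm, h4]

private lemma comm_fac32 {k : Type*} [Fintype k] [DecidableEq k] {e A : Matrix n n ℂ} {W : Matrix n k ℂ}
    {V : Matrix k n ℂ} (h1 : V * W = 1) (h2 : W * V = e) (hA : A * e = e * A) : A * W = W * (V * A * W) := by
  have e1 : e * W = W := by rw [← h2, Matrix.mul_assoc, h1, Matrix.mul_one]
  calc A * W = A * (e * W) := by rw [e1]
    _ = e * A * W := by rw [← Matrix.mul_assoc, hA]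
    _ = W * (V * A * W) := by
      rw [← h2]
      simp only [Matrix.mul_assoc]

private lemma det_smul32 {e : Matrix n n ℂ} (hee : e * e = e) (c : ℂ) : (c • e + (1 - e)).det = c ^ e.rank := by
  obtain ⟨W, V, h1, h2⟩ := fac32 hee
  have h3 : c • e + (1 - e) = (c • (1 : Matrix n n ℂ)) * e + (1 - e) := by rw [smul_mul_assoc, one_mul]
  rw [h3, det32 h1 h2, Matrix.mul_smul, Matrix.mul_one, Matrix.smul_mul, h1, Matrix.det_smul, Matrix.det_one,
    mul_one, Fintype.card_fin]

private lemma det_sq32 {Q' e A : Matrix n n ℂ} (hQ : Q'.det ≠ 0) (hee : e * e = e) (hadj : eᵀ * Q' = Q' * e)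
    (hA : A * e = e * A) {c : ℂ} (hc : Aᵀ * Q' * A = c • Q') : (A * e + (1 - e)).det ^ 2 = c ^ e.rank := by
  have h0 : (A * e + (1 - e))ᵀ * Q' = Aᵀ * Q' * e + Q' - Q' * e := by
    have h1 : (A * e + (1 - e))ᵀ = Aᵀ * eᵀ + (1 - eᵀ) := by
      rw [hA, Matrix.transpose_add, Matrix.transpose_mul, Matrix.transpose_sub, Matrix.transpose_one]
    rw [h1, add_mul, sub_mul, one_mul, mul_assoc, hadj, ← mul_assoc]
    abel
  have h2 : (A * e + (1 - e))ᵀ * Q' * (A * e + (1 - e)) = Q' * (c • e + (1 - e)) := by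
    rw [h0]
    have e1 : e * (A * e) = A * e := by rw [← mul_assoc, ← hA, mul_assoc, hee]
    have h3 : (Aᵀ * Q' * e + Q' - Q' * e) * (A * e + (1 - e)) =
        Aᵀ * Q' * (e * (A * e)) + (Aᵀ * Q' * e - Aᵀ * Q' * (e * e)) + (Q' * (A * e) - Q' * (e * (A * e))) +
          (Q' - Q' * e - Q' * e + Q' * (e * e)) := by
      simp only [mul_add, add_mul, mul_sub, sub_mul, mul_one, mul_assoc]
      abel
    rw [h3, e1, hee, sub_self, sub_self, ← mul_assoc, hc, mul_add, mul_sub, mul_one, mul_smul_comm,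
      smul_mul_assoc]
    abel
  have h4 := congrArg Matrix.det h2
  rw [Matrix.det_mul, Matrix.det_mul, Matrix.det_mul, Matrix.det_transpose, det_smul32 hee] at h4
  have h5 : Q'.det * ((A * e + (1 - e)).det ^ 2 - c ^ e.rank) = 0 := by linear_combination h4
  exact sub_eq_zero.1 ((mul_eq_zero.1 h5).resolve_left hQ)

variable {m : ℤ} {Q : Matrix n n ℚ} {S : Finset ℤ} {P : ℤ → Matrix n n ℂ}

private lemma cochar_sim32 (H : IsHS m Q S P) {z : ℂ} (hz : z ≠ 0) :
    (cochar S P z)ᵀ * toC Q * cochar S P z = z ^ (2 * m) • toC Q := by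
  unfold cochar
  rw [H.sum_transpose_mul_Q (fun p => z ^ p), mul_assoc, H.sum_mul_sum (fun p => z ^ (2 * m - p)) (fun p => z ^ p)]
  have h1 : ∀ p : ℤ, z ^ (2 * m - p) * z ^ p = z ^ (2 * m) := by
    intro p
    rw [← zpow_add₀ hz]
    congr 1
    ring
  simp_rw [h1]
  rw [← Finset.smul_sum, H.sum, mul_smul_comm, mul_one]

private lemma detQ32 (H : IsHS m Q S P) : (toC Q).det ≠ 0 := by
  obtain ⟨B, Bi, Qi, _, _, h3, _, _⟩ := H.exists_basis
  intro h0
  have := congrArg Matrix.det h3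
  rw [Matrix.det_mul, h0, zero_mul, Matrix.det_one] at this
  exact zero_ne_one this

/-- the conjugates of the cocharacter -/
private lemma cs_eq32 (σ : ℂ ≃+* ℂ) (z : ℂ) :
    ∑ p ∈ S, z ^ p • (P p).map σ = (cochar S P (σ.symm z)).map σ := by
  ext i j
  simp only [cochar, Matrix.sum_apply, Matrix.smul_apply, Matrix.map_apply, smul_eq_mul, map_sum, map_mul,
    map_zpow₀, RingEquiv.apply_symm_apply]

private lemma toC_map32 (σ : ℂ ≃+* ℂ) (A : Matrix n n ℚ) : (toC A).map σ = toC A := by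
  ext i j
  simp [toC]

private lemma cs_sim32 (H : IsHS m Q S P) (σ : ℂ ≃+* ℂ) {z : ℂ} (hz : z ≠ 0) :
    (∑ p ∈ S, z ^ p • (P p).map σ)ᵀ * toC Q * (∑ p ∈ S, z ^ p • (P p).map σ) = z ^ (2 * m) • toC Q := by
  have hz' : σ.symm z ≠ 0 := by simpa using hz
  have h1 := congrArg (fun M : Matrix n n ℂ => M.map σ) (cochar_sim32 H hz')
  simp only [Matrix.map_mul, Matrix.transpose_map, toC_map32] at h1
  rw [cs_eq32, h1]
  ext i j
  simp only [Matrix.map_apply, Matrix.smul_apply, smul_eq_mul, map_mul, map_zpow₀, RingEquiv.apply_symm_apply]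
  congr 1
  exact congrFun (congrFun (toC_map32 σ Q) i) j

private lemma cs_comm32 (σ : ℂ ≃+* ℂ) (z : ℂ) {E : Matrix n n ℂ} (hE : E ∈ EC P) :
    (∑ p ∈ S, z ^ p • (P p).map σ) * E = E * (∑ p ∈ S, z ^ p • (P p).map σ) := by
  have h1 : ∀ p, (P p).map σ * E = E * (P p).map σ := by
    intro p
    have h2 := EC_P (EC_aut σ.symm hE) p
    have h3 := congrArg (fun M : Matrix n n ℂ => M.map σ) h2
    simp only [Matrix.map_mul] at h3
    have h4 : (E.map σ.symm).map σ = E := by
      ext i j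
      simp
    rw [h4] at h3
    exact h3.symm
  rw [Finset.sum_mul, Finset.mul_sum]
  refine Finset.sum_congr rfl fun p _ => ?_
  rw [smul_mul_assoc, h1, mul_smul_comm]

private lemma idm_map32 (H : IsHS m Q S P) (σ : ℂ ≃+* ℂ) : Idm S (fun p => (P p).map σ) := by
  refine ⟨fun p q => ?_, ?_⟩
  · have h1 := congrArg (fun M : Matrix n n ℂ => M.map σ) (H.mul p q)
    simp only [Matrix.map_mul] at h1
    rw [h1]
    split_ifs
    · rfl
    · exact Matrix.map_zero _ (map_zero _)
  · have h1 := congrArg (fun M : Matrix n n ℂ => M.map σ) H.sum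
    ext i j
    have h2 := congrFun (congrFun h1 i) j
    simp only [Matrix.map_apply, Matrix.sum_apply, map_sum] at h2 ⊢
    rw [h2, Matrix.one_apply]
    split_ifs <;> simp

private lemma cs_sq32 (H : IsHS m Q S P) (σ : ℂ ≃+* ℂ) (w : ℂ) :
    (∑ p ∈ S, w ^ p • (P p).map σ) * (∑ p ∈ S, w ^ p • (P p).map σ) = ∑ p ∈ S, (w ^ 2) ^ p • (P p).map σ := by
  have hm := (idm_map32 H σ).mul
  rw [Finset.sum_mul]
  refine Finset.sum_congr rfl fun p hp => ?_
  rw [Finset.mul_sum, Finset.sum_eq_single p]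
  · have h1 : (P p).map σ * (P p).map σ = (P p).map σ := by
      have := hm p p
      rwa [if_pos rfl] at this
    rw [smul_mul_smul_comm, h1, ← mul_zpow, pow_two]
  · intro q _ hq
    have h1 : (P p).map σ * (P q).map σ = 0 := by
      have := hm p q
      rwa [if_neg (Ne.symm hq)] at this
    rw [smul_mul_smul_comm, h1, smul_zero]
  · intro h
    exact absurd hp h

private lemma cs_det32 (H : IsHS m Q S P) (hSA : SelfAdj Q P) (σ : ℂ ≃+* ℂ) {z : ℂ} (hz : z ≠ 0)
    {E : Matrix n n ℂ} (hE : E ∈ EC P) (hEE : E * E = E) :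
    ((∑ p ∈ S, z ^ p • (P p).map σ) * E + (1 - E)).det = z ^ (m * (E.rank : ℤ)) := by
  obtain ⟨w, hw⟩ := IsAlgClosed.exists_pow_nat_eq z (show 0 < 2 by norm_num)
  have hw0 : w ≠ 0 := by
    rintro rfl
    rw [zero_pow (by norm_num)] at hw
    exact hz hw.symm
  set A := ∑ p ∈ S, w ^ p • (P p).map σ with hA
  have hc : A * E = E * A := cs_comm32 σ w hE
  have h1 : (∑ p ∈ S, z ^ p • (P p).map σ) * E + (1 - E) = (A * E + (1 - E)) * (A * E + (1 - E)) := by
    rw [← hw, ← cs_sq32 H σ w, ← hA]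
    have e1 : A * E * (A * E) = A * A * E := by
      calc A * E * (A * E) = A * (E * A) * E := by simp only [mul_assoc]
        _ = A * A * (E * E) := by rw [← hc]; simp only [mul_assoc]
        _ = _ := by rw [hEE]
    have e2 : A * E * (1 - E) = 0 := by rw [mul_sub, mul_one, mul_assoc, hEE, sub_self]
    have e3 : (1 - E) * (A * E) = 0 := by
      rw [sub_mul, one_mul, ← mul_assoc E, ← hc, mul_assoc, hEE, sub_self]
    have e4 : (1 - E) * (1 - E) = 1 - E := by
      rw [mul_sub, mul_one, sub_mul, one_mul, hEE, sub_self, sub_zero]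
    rw [add_mul, mul_add, mul_add, e1, e2, e3, e4]
    abel
  have h2 := det_sq32 (detQ32 H) hEE (EC_adj hSA hE) hc (cs_sim32 H σ hw0)
  rw [h1, Matrix.det_mul, ← pow_two, h2, ← hw, ← zpow_natCast (w ^ (2 * m)), ← _root_.zpow_mul,
    ← zpow_natCast w 2, ← _root_.zpow_mul]
  congr 1
  push_cast
  ring

/-- the character of an idempotent -/
private lemma chi32 (H : IsHS m Q S P) (hSA : SelfAdj Q P) {g : GL n ℂ} (hg : g ∈ MT S P) {c : ℂ} (hc0 : c ≠ 0)
    (hc : (g : Matrix n n ℂ)ᵀ * toC Q * (g : Matrix n n ℂ) = c • toC Q) {E : Matrix n n ℂ} (hE : E ∈ EC P)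
    (hEE : E * E = E) (h : ℕ) (hr : m * (E.rank : ℤ) = 2 * m * h) (hE0 : E ≠ 0) :
    ((g : Matrix n n ℂ) * E + (1 - E)).det = c ^ h := by
  classical
  obtain ⟨W, V, h1, h2⟩ := fac32 hEE
  have hgW : ∀ A : Matrix n n ℂ, A * E = E * A → A * W = W * (V * A * W) :=
    fun A hA => comm_fac32 h1 h2 hA
  -- a nonzero entry of Q
  obtain ⟨x0, y0, hxy⟩ : ∃ x y, toC Q x y ≠ 0 := by
    by_contra hcon
    push Not at hcon
    have h0 : toC Q = 0 := by
      ext x y
      exact hcon x y
    have h3 := detQ32 H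
    have : Nonempty n := by
      by_contra hn
      rw [not_nonempty_iff] at hn
      exact hE0 (by ext x; exact hn.elim x)
    rw [h0, Matrix.det_zero] at h3
    exact h3 rfl
  obtain ⟨i0, hi0⟩ := dt_ne32 h1
  have ht : ∀ σ : ℂ ≃+* ℂ, dL E.rank (h * 2) (pt32 (dt32 W) (qt32 h (toC Q)))
      ((∑ p ∈ S, (p : ℂ) • P p).map σ) = 0 := by
    intro σ
    have h3 : (∑ p ∈ S, (p : ℂ) • P p).map σ = ∑ p ∈ S, (p : ℂ) • (P p).map σ := by
      ext i j
      simp only [Matrix.map_apply, Matrix.sum_apply, Matrix.smul_apply, smul_eq_mul, map_sum, map_mul, map_intCast]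
    rw [h3]
    refine ((idm_map32 H σ).inv_iff _ _ _).1 fun z hz => ?_
    rw [eig_pt32 (c := z ^ (m * (E.rank : ℤ))) (d := (z ^ (-(2 * m))) ^ h)]
    · rw [← zpow_natCast (z ^ (-(2 * m))) h, ← _root_.zpow_mul, ← zpow_add₀ hz]
      have h4 : m * (E.rank : ℤ) + -(2 * m) * (h : ℤ) = 0 := by
        rw [hr]
        ring
      rw [h4, zpow_zero, one_smul]
    · rw [act_dt32 (hgW _ (cs_comm32 σ z hE)), ← det32 h1 h2, cs_det32 H hSA σ hz hE hEE]
    · rw [act_qt32, Matrix.transpose_transpose, cs_sim32 H σ (inv_ne_zero hz), qt_smul32, _root_.inv_zpow,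
        _root_.zpow_neg]
  have h5 := MT_fix_of_kill H ht hg
  have hi : (((g⁻¹ : GL n ℂ) : Matrix n n ℂ))ᵀ * toC Q * ((g⁻¹ : GL n ℂ) : Matrix n n ℂ) = c⁻¹ • toC Q := by
    have e1 : (g : Matrix n n ℂ) * ((g⁻¹ : GL n ℂ) : Matrix n n ℂ) = 1 := by
      rw [← Units.val_mul, mul_inv_cancel, Units.val_one]
    have e2 : (((g⁻¹ : GL n ℂ) : Matrix n n ℂ))ᵀ * (g : Matrix n n ℂ)ᵀ = 1 := by
      rw [← Matrix.transpose_mul, e1, Matrix.transpose_one]
    have e3 : (((g⁻¹ : GL n ℂ) : Matrix n n ℂ))ᵀ * ((g : Matrix n n ℂ)ᵀ * toC Q * (g : Matrix n n ℂ)) *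
        ((g⁻¹ : GL n ℂ) : Matrix n n ℂ) = toC Q := by
      calc _ = ((((g⁻¹ : GL n ℂ) : Matrix n n ℂ))ᵀ * (g : Matrix n n ℂ)ᵀ) * toC Q *
          ((g : Matrix n n ℂ) * ((g⁻¹ : GL n ℂ) : Matrix n n ℂ)) := by simp only [mul_assoc]
        _ = toC Q := by rw [e1, e2, one_mul, mul_one]
    rw [hc, mul_smul_comm, smul_mul_assoc] at e3
    rw [← e3, smul_smul, inv_mul_cancel₀ hc0, one_smul, e3]
  have hgE : (g : Matrix n n ℂ) * E = E * (g : Matrix n n ℂ) := MT_EC H hg hE
  rw [eig_pt32 (c := ((g : Matrix n n ℂ) * E + (1 - E)).det) (d := (c⁻¹) ^ h)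
    (by rw [act_dt32 (hgW _ hgE), ← det32 h1 h2])
    (by rw [act_qt32, Matrix.transpose_transpose, hi, qt_smul32])] at h5
  have h6 := congrFun h5 (Sum.elim i0 (fun k => if (finProdFinEquiv.symm k).2 = 0 then x0 else y0))
  simp only [Pi.smul_apply, smul_eq_mul] at h6
  have h7 : pt32 (dt32 W) (qt32 h (toC Q))
      (Sum.elim i0 (fun k => if (finProdFinEquiv.symm k).2 = 0 then x0 else y0)) ≠ 0 := by
    unfold pt32
    exact mul_ne_zero hi0 (qt_ne32 hxy h)
  have h8 : ((g : Matrix n n ℂ) * E + (1 - E)).det * (c⁻¹) ^ h = 1 := mul_right_cancel₀ h7 (by rw [h6, one_mul])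
  have h9 : c ^ h ≠ 0 := pow_ne_zero _ hc0
  rw [inv_pow] at h8
  field_simp at h8
  exact h8

private lemma block_or32 (H : IsHS m Q S P) (hSA : SelfAdj Q P) {e f : Matrix n n ℂ} (he : IsBlock P e)
    (hf : IsBlock P f) : e = f ∨ e * f = 0 := by
  obtain ⟨c, hc⟩ := he.min f hf.mem
  obtain ⟨d, hd⟩ := hf.min e he.mem
  have h1 := EC_comm H hSA he.mem hf.mem
  by_cases h0 : e * f = 0
  · exact Or.inr h0
  · left
    have h2 : c • e = d • f := by rw [← hc, ← hd, h1]
    have hc0 : c ≠ 0 := by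
      rintro rfl
      rw [zero_smul] at hc
      exact h0 (by rw [h1, hc])
    have h3 : e = (c⁻¹ * d) • f := by rw [mul_smul, ← h2, smul_smul, inv_mul_cancel₀ hc0, one_smul]
    have h4 : f * e = e := by
      rw [h3, mul_smul_comm, hf.idem]
    have h5 : c = 1 := by
      have h6 : (c - 1) • e = 0 := by rw [sub_smul, one_smul, ← hc, h4, sub_self]
      exact sub_eq_zero.1 ((smul_eq_zero.1 h6).resolve_right he.ne)
    have h6 : e * f = e := by rw [h1, h4]
    have h7 : d = 1 := by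
      have h8 : f = (d⁻¹ * c) • e := by
        have hd0 : d ≠ 0 := by
          rintro rfl
          rw [zero_smul] at hd
          exact h0 hd
        rw [mul_smul, h2, smul_smul, inv_mul_cancel₀ hd0, one_smul]
      have h9 : e * f = f := by rw [h8, mul_smul_comm, he.idem]
      have h10 : (d - 1) • f = 0 := by rw [sub_smul, one_smul, ← hd, h9, sub_self]
      exact sub_eq_zero.1 ((smul_eq_zero.1 h10).resolve_right hf.ne)
    rw [h5, h7, one_smul, one_smul] at h2
    exact h2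

private lemma rank_add32 {e f : Matrix n n ℂ} (hee : e * e = e) (hff : f * f = f) (hef : e * f = 0) (hfe : f * e = 0) :
    (e + f).rank = e.rank + f.rank := by
  have h1 : (e + f) * (e + f) = e + f := by rw [add_mul, mul_add, mul_add, hee, hff, hef, hfe]; abel
  have h2 := trace_eq_rank h1
  rw [Matrix.trace_add, trace_eq_rank hee, trace_eq_rank hff] at h2
  exact_mod_cast h2.symm

theorem MT_InG (H : IsHS m Q S P) (hSA : SelfAdj Q P) {g : GL n ℂ} (hg : g ∈ MT S P) :
    InG m Q P (g : Matrix n n ℂ) := by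
  refine ⟨fun x hx => MT_EC H hg hx, ?_⟩
  obtain ⟨z, hz1, hz2, -⟩ := MT_le H hg
  have hz0 : ∀ e, IsBlock P e → z ≠ 0 := by
    rintro e he rfl
    have : Nonempty n := by
      by_contra hn
      rw [not_nonempty_iff] at hn
      exact he.ne (by ext x; exact hn.elim x)
    have h1 := congrArg Matrix.det hz2
    rw [Matrix.det_mul, Matrix.det_mul, Matrix.det_transpose, zero_pow two_ne_zero, zero_smul,
      Matrix.det_zero] at h1
    have h2 : (g : Matrix n n ℂ).det ≠ 0 := by
      have h3 : (g : Matrix n n ℂ).det * ((g⁻¹ : GL n ℂ) : Matrix n n ℂ).det = 1 := by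
        rw [← Matrix.det_mul, ← Units.val_mul, mul_inv_cancel, Units.val_one, Matrix.det_one]
      exact left_ne_zero_of_mul_eq_one h3
    exact mul_ne_zero (mul_ne_zero h2 (detQ32 H)) h2 h1
  by_cases hm : m = 0
  · refine ⟨1, fun _ => rfl, by rw [hz2, hz1 hm], fun e he => ?_⟩
    have h1 := chi32 H hSA hg (c := z ^ 2) (pow_ne_zero _ (hz0 e he)) hz2 he.mem he.idem 0 (by rw [hm]; simp) he.ne
    rw [h1, pow_zero, one_pow]
  have hev : ∀ E : Matrix n n ℂ, E ∈ EC P → E * E = E → E ≠ 0 → Even E.rank → z ≠ 0 →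
      ((g : Matrix n n ℂ) * E + (1 - E)).det = z ^ E.rank := by
    intro E hE hEE hE0 hev hz
    obtain ⟨h, hh⟩ := hev
    have h1 := chi32 H hSA hg (c := z ^ 2) (pow_ne_zero _ hz) hz2 hE hEE h (by rw [hh]; push_cast; ring) hE0
    rw [h1, hh, ← pow_mul, two_mul]
  by_cases hodd : ∃ e, IsBlock P e ∧ Odd e.rank
  · obtain ⟨e0, he0, ho⟩ := hodd
    have hz := hz0 e0 he0
    have h1 := det_sq32 (detQ32 H) he0.idem (EC_adj hSA he0.mem) (MT_EC H hg he0.mem) hz2
    have h2 : ((g : Matrix n n ℂ) * e0 + (1 - e0)).det ^ 2 = (z ^ e0.rank) ^ 2 := by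
      rw [h1, ← pow_mul, ← pow_mul, mul_comm]
    obtain ⟨w, hw1, hw2⟩ : ∃ w : ℂ, w ^ 2 = z ^ 2 ∧ ((g : Matrix n n ℂ) * e0 + (1 - e0)).det = w ^ e0.rank := by
      rcases sq_eq_sq_iff_eq_or_eq_neg.1 h2 with h3 | h3
      · exact ⟨z, rfl, h3⟩
      · exact ⟨-z, neg_sq z, by rw [h3, ho.neg_pow]⟩
    have hw0 : w ≠ 0 := by
      rintro rfl
      rw [zero_pow two_ne_zero] at hw1
      exact pow_ne_zero 2 hz hw1.symm
    have hwe : ∀ k : ℕ, Even k → w ^ k = z ^ k := by
      rintro k ⟨l, rfl⟩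
      rw [← two_mul, pow_mul, pow_mul, hw1]
    refine ⟨w, fun h => absurd h hm, by rw [hw1, hz2], fun e he => ?_⟩
    rcases Nat.even_or_odd e.rank with h3 | h3
    · rw [hev e he.mem he.idem he.ne h3 hz, hwe _ h3]
    · rcases block_or32 H hSA he0 he with h4 | h4
      · rw [← h4, hw2]
      · have h5 : e * e0 = 0 := by rw [← EC_comm H hSA he0.mem he.mem, h4]
        have h6 : (e0 + e) * (e0 + e) = e0 + e := by
          rw [add_mul, mul_add, mul_add, he0.idem, he.idem, h4, h5]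
          abel
        have h7 : e0 + e ≠ 0 := by
          intro h8
          have h9 : e0 * (e0 + e) = 0 := by rw [h8, mul_zero]
          rw [mul_add, he0.idem, h4, add_zero] at h9
          exact he0.ne h9
        have hr := rank_add32 he0.idem he.idem h4 h5
        have h8 := hev (e0 + e) ((EC P).add_mem he0.mem he.mem) h6 h7 (by rw [hr]; exact ho.add_odd h3) hz
        have hge : (g : Matrix n n ℂ) * e = e * (g : Matrix n n ℂ) := MT_EC H hg he.mem
        have hge0 : (g : Matrix n n ℂ) * e0 = e0 * (g : Matrix n n ℂ) := MT_EC H hg he0.mem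
        have h9 : (g : Matrix n n ℂ) * (e0 + e) + (1 - (e0 + e)) =
            ((g : Matrix n n ℂ) * e0 + (1 - e0)) * ((g : Matrix n n ℂ) * e + (1 - e)) := by
          have a1 : (g : Matrix n n ℂ) * e0 * ((g : Matrix n n ℂ) * e) = 0 := by
            rw [hge]
            calc _ = (g : Matrix n n ℂ) * (e0 * e) * (g : Matrix n n ℂ) := by simp only [mul_assoc]
              _ = 0 := by rw [h4, mul_zero, zero_mul]
          have a2 : (g : Matrix n n ℂ) * e0 * e = 0 := by rw [mul_assoc, h4, mul_zero]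
          have a3 : e0 * ((g : Matrix n n ℂ) * e) = 0 := by rw [hge, ← mul_assoc, h4, zero_mul]
          simp only [mul_add, add_mul, mul_sub, sub_mul, mul_one, one_mul, a1, a2, a3, h4]
          abel
        rw [h9, Matrix.det_mul, hw2, hr, ← hwe _ (ho.add_odd h3), pow_add] at h8
        exact mul_left_cancel₀ (pow_ne_zero _ hw0) h8
  · push Not at hodd
    refine ⟨z, fun h => absurd h hm, hz2, fun e he => ?_⟩
    have h1 : Even e.rank := by
      rw [← Nat.not_odd_iff_even]
      exact hodd e he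
    exact hev e he.mem he.idem he.ne h1 (hz0 e he)

end MH
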